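import Pool.Agent.THG.W.Cmp
import Pool.Agent.THF.L.Alg
import Pool.Agent.MD.L.Sq

/-!
# THG/F-Main: the exact sign for all quadratic extensions

PLAN.  `kF_eq`: `alg_rel φ hTp h2 ⟨K⟩` (THF/L/Alg, any `φ`): `Rel T (replicate m K ++ A) (replicate (m r1) ℚ ++ B)`, `A`, `B` thin.  `cmp`; `kF` of a thin field is `0` (no real embeddings: `Thin.1`), `kF ℚ = 1` (`chi_rat`, one real embedding: the type `ℚ →+* ℝ` has one element, `Subsingleton`, `Rat.castHom`); `List.map_append`,
`List.sum_append`, `List.map_replicate`, `List.sum_replicate`: `m * kF K = m * r1`.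
`signs_one`: `kk e = r1 = card (K →+* ℝ)` (`card_real`, QD/N4): all `e φ = 1` (the subtype has the cardinality of the finite type).  `exact_sign`: `chi e x = 1`, `hw_of_SG`, `exists_root` (MD/L/Sq).
-/

namespace Pool.Agent.THG

open NumberField IsDedekindDomain Pool.Agent.HWR Pool.Agent.QD Pool.Agent.QD.In Pool.Agent.LD
  Pool.Agent.MD Pool.Agent.THF Pool.Agent.H73.AL

variable {T : Finset ℕ} (D : LocData T) {a : ℕ → ℝ} (hTp : ∀ p ∈ T, p.Prime)
  (hT : ∀ p : ℕ, p.Prime → p < 101 → p ∈ T) (ha : ∀ q : ℕ, |a q| ≤ 2 * Real.sqrt q)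
  (hfr : FrobRel T a) (hE : ExPM D a)

include hTp hT ha hfr hE

theorem kF_eq (K : Type) [Field K] [NumberField K] :
    kF D a K = InfinitePlace.nrRealPlaces K := by
  obtain ⟨m, A, B, hm, hAB, hrel⟩ := alg_rel (fun n => n) hTp (hT 2 Nat.prime_two (by norm_num))
    ⟨K⟩
  have h0 : ∀ F ∈ A ++ B, kF D a F.F = 0 := by
    intro F hF
    have h1 : IsEmpty (F.F →+* ℝ) := (hAB F hF).1
    rw [kF, kk]
    exact Nat.card_eq_zero.2 (Or.inl inferInstance)
  have hq : kF D a ℚ = 1 := by
    rw [kF, kk, Nat.card_eq_one_iff_unique]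
    refine ⟨⟨fun x y => Subtype.ext (Subsingleton.elim _ _)⟩, ⟨⟨Rat.castHom ℝ, ?_⟩⟩⟩
    exact chi_rat hTp hT D ha hE (eF_spec D hTp hT ha hE ℚ).2 _
  have hA : (A.map fun F => kF D a F.F).sum = 0 :=
    List.sum_eq_zero fun x hx => by
      obtain ⟨F, hF, rfl⟩ := List.mem_map.1 hx
      exact h0 F (List.mem_append.2 (Or.inl hF))
  have hB : (B.map fun F => kF D a F.F).sum = 0 :=
    List.sum_eq_zero fun x hx => by
      obtain ⟨F, hF, rfl⟩ := List.mem_map.1 hx
      exact h0 F (List.mem_append.2 (Or.inr hF))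
  have h := cmp D hTp hT ha hfr hE hrel
  rw [List.map_append, List.map_append, List.sum_append, List.sum_append, hA, hB,
    List.map_replicate, List.map_replicate, List.sum_replicate, List.sum_replicate, hq] at h
  simp only [smul_eq_mul, mul_one, add_zero] at h
  exact Nat.eq_of_mul_eq_mul_left hm h

theorem signs_one (K : Type) [Field K] [NumberField K] (φ : K →+* ℝ) : eF D a K φ = 1 := by
  by_contra hne
  have h1 := kF_eq D hTp hT ha hfr hE K
  rw [kF, kk, Pool.Agent.QD.N4.card_real] at h1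
  have h2 : Nat.card {φ : K →+* ℝ // eF D a K φ = 1} < Nat.card (K →+* ℝ) :=
    Finite.card_subtype_lt hne
  omega

theorem exact_sign (K F : Type) [Field K] [NumberField K] [Field F] [NumberField F] [Algebra K F]
    (hd : Module.finrank K F = 2) : D.HW a F := by
  obtain ⟨b, θ, hb, hθ⟩ := exists_root (K := K) F hd
  refine hw_of_SG hTp hT D ha hb F hd θ hθ ?_
  have h1 := (eF_spec D hTp hT ha hE K).2 b
  have h2 : chi (eF D a K) b = 1 := by
    rw [chi]
    refine finprod_eq_one_of_forall_eq_one fun φ => ?_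
    rw [signs_one D hTp hT ha hfr hE K φ, ite_self]
  rwa [h2] at h1

end Pool.Agent.THG
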